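import Pool.Agent.MP_c1891a_nt.H79.Spec

/-
Lower bound for the product of the values of an integer polynomial at the primitive roots of
unity of prime power order.
-/

namespace Pool.Agent.MP_c1891a_nt.H88

open Finset Polynomial Pool.Agent.MP_c1891a_nt.H79

/-- a number in the unit disc whose power is close to `1` is close to a root of unity. -/
theorem near_small (α : ℂ) (Q : ℕ) (hQ : 0 < Q) (δ : ℝ) (hδ : δ ≤ 1 / 2) (hα : ‖α‖ ≤ 1)
    (h : ‖α ^ Q - 1‖ ≤ δ) : ∃ ω : ℂ, ω ^ Q = 1 ∧ ‖α - ω‖ ≤ 3 * δ := by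
  have h0 : α ^ Q ≠ 0 := by
    intro h0
    rw [h0] at h
    simp at h
    linarith
  have hL : ‖Complex.log (α ^ Q)‖ ≤ 3 / 2 * δ := by
    have := Complex.norm_log_one_add_half_le_self (z := α ^ Q - 1) (h.trans hδ)
    rw [add_sub_cancel] at this
    linarith
  have hQ1 : (1 : ℝ) ≤ Q := by exact_mod_cast hQ
  have hQ0 : (Q : ℂ) ≠ 0 := by exact_mod_cast hQ.ne'
  have hx : ‖-Complex.log (α ^ Q) / Q‖ ≤ 3 / 2 * δ := by
    rw [norm_div, norm_neg, Complex.norm_natCast]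
    exact (div_le_self (norm_nonneg _) hQ1).trans hL
  refine ⟨α * Complex.exp (-Complex.log (α ^ Q) / Q), ?_, ?_⟩
  · rw [mul_pow, ← Complex.exp_nat_mul, mul_div_cancel₀ _ hQ0, Complex.exp_neg,
      Complex.exp_log h0, mul_inv_cancel₀ h0]
  · have h1 := Complex.norm_exp_sub_one_le (x := -Complex.log (α ^ Q) / Q) (by linarith)
    have : α - α * Complex.exp (-Complex.log (α ^ Q) / Q) =
        -(α * (Complex.exp (-Complex.log (α ^ Q) / Q) - 1)) := by ring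
    rw [this, norm_neg, norm_mul]
    calc ‖α‖ * ‖Complex.exp (-Complex.log (α ^ Q) / Q) - 1‖
        ≤ 1 * ‖Complex.exp (-Complex.log (α ^ Q) / Q) - 1‖ := by gcongr
      _ ≤ 3 * δ := by linarith

/-- a number whose power is relatively close to `1` is close to a root of unity. -/
theorem near (α : ℂ) (Q : ℕ) (hQ : 0 < Q) (δ : ℝ) (hδ : δ ≤ 1 / 2)
    (h : ‖α ^ Q - 1‖ ≤ δ * max 1 ‖α‖ ^ Q) : ∃ ω : ℂ, ω ^ Q = 1 ∧ ‖α - ω‖ ≤ 6 * δ := by
  have hM : (0 : ℝ) < max 1 ‖α‖ ^ Q := by positivity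
  have hδ0 : 0 ≤ δ := by
    by_contra hn
    push Not at hn
    have := mul_neg_of_neg_of_pos hn hM
    linarith [norm_nonneg (α ^ Q - 1)]
  rcases le_total ‖α‖ 1 with hα | hα
  · rw [max_eq_left hα, one_pow, mul_one] at h
    obtain ⟨ω, h1, h2⟩ := near_small α Q hQ δ hδ hα h
    exact ⟨ω, h1, by linarith⟩
  · rw [max_eq_right hα] at h
    have hα0 : α ≠ 0 := by
      intro h0
      rw [h0] at hα
      simp at hα
      linarith
    have hn0 : 0 < ‖α‖ := norm_pos_iff.mpr hα0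
    have hinv : ‖α⁻¹‖ ≤ 1 := by
      rw [norm_inv]
      exact inv_le_one_of_one_le₀ hα
    have h' : ‖α⁻¹ ^ Q - 1‖ ≤ δ := by
      have e : α⁻¹ ^ Q - 1 = -((α ^ Q - 1) / α ^ Q) := by
        rw [inv_pow]
        field_simp
        ring
      rw [e, norm_neg, norm_div, norm_pow, div_le_iff₀ (by positivity)]
      exact h
    obtain ⟨ω, h1, h2⟩ := near_small α⁻¹ Q hQ δ hδ hinv h'
    have hω : ‖ω‖ = 1 := by
      have : ‖ω‖ ^ Q = 1 := by rw [← norm_pow, h1, norm_one]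
      exact (pow_eq_one_iff_of_nonneg (norm_nonneg _) hQ.ne').mp this
    have hω0 : ω ≠ 0 := by
      intro h0
      rw [h0] at hω
      simp at hω
    have hα2 : ‖α‖ ≤ 2 := by
      have a1 : (1 : ℝ) / 2 ≤ ‖α⁻¹ ^ Q‖ := by
        have := norm_sub_norm_le (1 : ℂ) (α⁻¹ ^ Q)
        rw [norm_sub_rev, norm_one] at this
        linarith
      have a2 : ‖α⁻¹ ^ Q‖ ≤ ‖α⁻¹‖ := by
        rw [norm_pow]
        exact pow_le_of_le_one (norm_nonneg _) hinv hQ.ne'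
      have a3 : (1 : ℝ) / 2 ≤ ‖α‖⁻¹ := by
        rw [← norm_inv]
        linarith
      rw [le_inv_comm₀ (by norm_num) hn0] at a3
      linarith
    refine ⟨ω⁻¹, by rw [inv_pow, h1, inv_one], ?_⟩
    have e : α - ω⁻¹ = -(α * ω⁻¹ * (α⁻¹ - ω)) := by
      field_simp
      ring
    rw [e, norm_neg, norm_mul, norm_mul, norm_inv, hω, inv_one, mul_one]
    calc ‖α‖ * ‖α⁻¹ - ω‖ ≤ 2 * (3 * δ) := by gcongr
      _ = 6 * δ := by ring

/-- lower bound for the cyclotomic polynomial of prime power order far from roots of unity. -/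
theorem cyc_lower (α : ℂ) (Q : ℕ) (hQ : IsPrimePow Q) (η : ℝ) (hη0 : 0 < η) (hη : η ≤ 1)
    (h : ∀ ω : ℂ, ω ^ Q = 1 → η ≤ ‖α - ω‖) :
    η / 14 ≤ ∏ σ ∈ primitiveRoots Q ℂ, ‖σ - α‖ := by
  have hQ0 : 0 < Q := hQ.pos
  obtain ⟨p, k, hp, hk, rfl⟩ := (isPrimePow_nat_iff _).mp hQ
  obtain ⟨k, rfl⟩ : ∃ j, k = j + 1 := ⟨k - 1, by omega⟩
  have : Fact p.Prime := ⟨hp⟩
  have hM1 : (1 : ℝ) ≤ max 1 ‖α‖ := le_max_left _ _
  have hM : (0 : ℝ) < max 1 ‖α‖ ^ p ^ (k + 1) := by positivity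
  have h1 : η / 7 * max 1 ‖α‖ ^ p ^ (k + 1) ≤ ‖α ^ p ^ (k + 1) - 1‖ := by
    by_contra hn
    push Not at hn
    obtain ⟨ω, a1, a2⟩ := near α _ hQ0 (η / 7) (by linarith) hn.le
    have := h ω a1
    linarith
  have h2 : ‖α ^ p ^ k - 1‖ ≤ 2 * max 1 ‖α‖ ^ p ^ (k + 1) := by
    have a1 : ‖α ^ p ^ k‖ ≤ max 1 ‖α‖ ^ p ^ (k + 1) := by
      rw [norm_pow]
      calc ‖α‖ ^ p ^ k ≤ max 1 ‖α‖ ^ p ^ k := by
            gcongr
            exact le_max_right _ _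
        _ ≤ max 1 ‖α‖ ^ p ^ (k + 1) :=
            pow_le_pow_right₀ hM1 (Nat.pow_le_pow_right hp.pos (Nat.le_succ k))
    have a2 : (1 : ℝ) ≤ max 1 ‖α‖ ^ p ^ (k + 1) := one_le_pow₀ hM1
    have a3 := norm_sub_le (α ^ p ^ k) 1
    rw [norm_one] at a3
    linarith
  have h3 := congrArg (Polynomial.eval α) (cyclotomic_prime_pow_mul_X_pow_sub_one ℂ p k)
  rw [cyclotomic_eq_prod_X_sub_primitiveRoots (Complex.isPrimitiveRoot_exp _ hQ0.ne')] at h3
  simp only [eval_mul, eval_prod, eval_sub, eval_X, eval_C, eval_pow, eval_one] at h3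
  have h4 : (∏ σ ∈ primitiveRoots (p ^ (k + 1)) ℂ, ‖σ - α‖) * ‖α ^ p ^ k - 1‖ =
      ‖α ^ p ^ (k + 1) - 1‖ := by
    rw [← h3, norm_mul, norm_prod]
    congr 1
    exact Finset.prod_congr rfl fun σ _ => norm_sub_rev _ _
  have h5 : 0 ≤ ∏ σ ∈ primitiveRoots (p ^ (k + 1)) ℂ, ‖σ - α‖ :=
    Finset.prod_nonneg fun _ _ => norm_nonneg _
  have h6 : η / 14 * (2 * max 1 ‖α‖ ^ p ^ (k + 1)) ≤
      (∏ σ ∈ primitiveRoots (p ^ (k + 1)) ℂ, ‖σ - α‖) * (2 * max 1 ‖α‖ ^ p ^ (k + 1)) := by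
    calc η / 14 * (2 * max 1 ‖α‖ ^ p ^ (k + 1)) = η / 7 * max 1 ‖α‖ ^ p ^ (k + 1) := by ring
      _ ≤ _ := h1
      _ = _ := h4.symm
      _ ≤ _ := by gcongr
  exact le_of_mul_le_mul_right h6 (by positivity)

/-- exchanging the product over the roots with the product over the roots of unity. -/
theorem prod_multiset (s : Multiset ℂ) (T : Finset ℂ) (c : ℝ) (hc : 0 ≤ c)
    (h : ∀ α ∈ s, c ≤ ∏ σ ∈ T, ‖σ - α‖) :
    c ^ s.card ≤ ∏ σ ∈ T, ‖(s.map fun a => σ - a).prod‖ := by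
  induction s using Multiset.induction_on with
  | empty => simp
  | cons a s ih =>
    simp only [Multiset.map_cons, Multiset.prod_cons, Multiset.card_cons, norm_mul,
      Finset.prod_mul_distrib]
    rw [pow_succ, mul_comm]
    have h1 := h a (Multiset.mem_cons_self _ _)
    have h2 := ih fun α hα => h α (Multiset.mem_cons_of_mem hα)
    exact mul_le_mul h1 h2 (by positivity) (hc.trans h1)

theorem sprod (h : STL) : SProd := by
  obtain ⟨Y₀, hY₀⟩ := h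
  refine ⟨max Y₀ 2, fun Y hY f Q hf hdeg hco hroot hQ hQY => ?_⟩
  have hY1 : Y₀ ≤ Y := (le_max_left _ _).trans hY
  have hY2 : (2 : ℝ) ≤ Y := by exact_mod_cast (le_max_right _ _).trans hY
  set g : ℂ[X] := f.map (Int.castRingHom ℂ) with hg
  have hinj : Function.Injective (Int.castRingHom ℂ) := (Int.castRingHom ℂ).injective_int
  have hev : ∀ x : ℂ, aeval x f = g.eval x := fun x => by
    rw [hg, aeval_def, eval_map]
    rfl
  have hsp : g.Splits := IsAlgClosed.splits g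
  have hcard : g.roots.card ≤ Y := by
    rw [← hsp.natDegree_eq_card_roots, hg, natDegree_map_eq_of_injective hinj]
    exact hdeg
  have hlc : ‖g.leadingCoeff‖ = |(f.leadingCoeff : ℝ)| := by
    rw [hg, leadingCoeff_map_of_injective hinj]
    simp
  have hc : ∀ α ∈ g.roots, Real.exp (-(Y : ℝ) ^ 15) ≤ ∏ σ ∈ primitiveRoots Q ℂ, ‖σ - α‖ := by
    intro α hα
    have hα0 : aeval α f = 0 := by
      rw [hev]
      exact (mem_roots'.mp hα).2
    have h1 := cyc_lower α Q hQ (Real.exp (-(Y : ℝ) ^ 14)) (Real.exp_pos _)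
      (Real.exp_le_one_iff.mpr (by
        have : (0 : ℝ) ≤ (Y : ℝ) ^ 14 := by positivity
        linarith))
      fun ω hω => hY₀ Y hY1 f α ω Q hf hdeg hco hα0 (hroot α hα0) hQ.pos hQY hω
    refine le_trans ?_ h1
    have a1 : (13 : ℝ) ≤ (Y : ℝ) ^ 14 := by
      calc (13 : ℝ) ≤ 2 ^ 14 := by norm_num
        _ ≤ _ := by gcongr
    have a2 : (Y : ℝ) ^ 14 * 2 ≤ (Y : ℝ) ^ 15 := by
      rw [pow_succ (Y : ℝ) 14]
      gcongr
    have a3 : (14 : ℝ) ≤ Real.exp 13 := by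
      have := Real.add_one_le_exp 13
      linarith
    rw [le_div_iff₀ (by norm_num)]
    calc Real.exp (-(Y : ℝ) ^ 15) * 14 ≤ Real.exp (-(Y : ℝ) ^ 15) * Real.exp 13 := by gcongr
      _ = Real.exp (-(Y : ℝ) ^ 15 + 13) := (Real.exp_add _ _).symm
      _ ≤ _ := Real.exp_le_exp.mpr (by linarith)
  have h1 := prod_multiset g.roots (primitiveRoots Q ℂ) _ (Real.exp_pos _).le hc
  have h2 : Real.exp (-(Y : ℝ) ^ 16) ≤ Real.exp (-(Y : ℝ) ^ 15) ^ g.roots.card := by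
    rw [← Real.exp_nat_mul]
    apply Real.exp_le_exp.mpr
    have a1 : (g.roots.card : ℝ) ≤ Y := by exact_mod_cast hcard
    have a2 : (g.roots.card : ℝ) * (Y : ℝ) ^ 15 ≤ (Y : ℝ) * (Y : ℝ) ^ 15 := by gcongr
    have a3 : (Y : ℝ) * (Y : ℝ) ^ 15 = (Y : ℝ) ^ 16 := by ring
    linarith
  have h3 : ∏ σ ∈ primitiveRoots Q ℂ, ‖aeval σ f‖ =
      |(f.leadingCoeff : ℝ)| ^ Q.totient *
        ∏ σ ∈ primitiveRoots Q ℂ, ‖(g.roots.map fun a => σ - a).prod‖ := by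
    rw [← Complex.card_primitiveRoots, ← Finset.prod_const, ← Finset.prod_mul_distrib]
    refine Finset.prod_congr rfl fun σ _ => ?_
    rw [hev, hsp.eval_eq_prod_roots, norm_mul, hlc]
  rw [h3]
  exact mul_le_mul_of_nonneg_left (h2.trans h1) (by positivity)

end Pool.Agent.MP_c1891a_nt.H88
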