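import Pool.Agent.MP_c1891a_nt.H88.ElimV

/-
The count of the common zeros by the degree of a resultant.
-/

namespace Pool.Agent.MP_c1891a_nt.H91

open Finset Polynomial

namespace Elim

lemma syl_vec {f g : ℂ[X]} {m n : ℕ} (hf : f.natDegree ≤ m) (hg : g.natDegree ≤ n) {y : ℂ}
    (h1 : f.eval y = 0) (h2 : g.eval y = 0) (j : Fin (m + n)) :
    ∑ i : Fin (m + n), y ^ (i : ℕ) * sylvester f g m n i j = 0 := by
  have key : ∀ (p : ℂ[X]) (d j : ℕ), p.natDegree ≤ d → j + d < m + n → p.eval y = 0 →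
      ∑ i : Fin (m + n), y ^ (i : ℕ) *
        (if (i : ℕ) ∈ Set.Icc j (j + d) then p.coeff (i - j) else 0) = 0 := fun p d j hp hj h => by
    have h3 : (X ^ j * p).eval y = 0 := by simp [h]
    rw [eval_eq_sum_range' (n := m + n) (natDegree_mul_le.trans_lt (by rw [natDegree_X_pow]; omega)),
      Finset.sum_range] at h3
    refine Eq.trans (sum_congr rfl fun i _ => ?_) h3
    rw [coeff_X_pow_mul', mul_comm]
    congr 1
    by_cases h4 : j ≤ i
    · by_cases h5 : (i : ℕ) ≤ j + d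
      · simp [h4, h5]
      · rw [if_neg fun e => h5 e.2, if_pos h4, coeff_eq_zero_of_natDegree_lt (by omega)]
    · rw [if_neg fun e => h4 e.1, if_neg h4]
  induction j using Fin.addCases with
  | left j => simpa [sylvester] using key g n j hg (by omega) h2
  | right j => simpa [sylvester] using key f m j hf (by omega) h1

lemma exists_trans {D : ℂ[X]} (h : D ≠ 0) : ∃ x : ℂ, x ≠ 0 ∧ ¬ IsAlgebraic ℚ x ∧ D.eval x ≠ 0 := by
  by_contra hc
  push Not at hc
  refine not_countable_complex (((Algebraic.countable ℚ ℂ).union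
    (finite_setOfPred_isRoot h).countable).mono fun x _ => ?_)
  by_cases h1 : IsAlgebraic ℚ x
  · exact Or.inl h1
  · exact Or.inr (hc x (fun e => h1 (e ▸ isAlgebraic_zero)) h1)

lemma pow_dvd {F G : ℂ[X][X]} {m n : ℕ} (hF : F.natDegree ≤ m) (hG : G.natDegree ≤ n) (x : ℂ)
    (T : Finset ℂ) (hT : T.card ≤ m + n) (h : ∀ y ∈ T, F.evalEval x y = 0 ∧ G.evalEval x y = 0) :
    (X - C x) ^ T.card ∣ resultant F G m n := by
  classical
  obtain ⟨T', h1, h2⟩ := Infinite.exists_superset_card_eq T _ hT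
  set e : Fin (m + n) → ℂ := fun l => (T'.equivFinOfCardEq h2).symm l
  have he : Function.Injective e := Subtype.val_injective.comp (Equiv.injective _)
  have h3 : (univ.filter fun l => e l ∈ T).card = T.card := by
    rw [← card_image_of_injective _ he]
    congr 1
    ext y
    simp only [mem_image, mem_filter, mem_univ, true_and]
    exact ⟨fun ⟨l, h, h'⟩ => h' ▸ h, fun h => ⟨T'.equivFinOfCardEq h2 ⟨y, h1 h⟩, by simpa [e] using h,
      by simp [e]⟩⟩
  have h4 : IsUnit (C.mapMatrix (Matrix.vandermonde e) : Matrix _ _ ℂ[X]).det := by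
    rw [← RingHom.map_det]
    exact isUnit_C.2 (Matrix.det_vandermonde_ne_zero_iff.2 he).isUnit
  rw [← h4.dvd_mul_left, resultant, ← Matrix.det_mul, ← Matrix.det_transpose, Matrix.det_apply',
    ← h3, ← prod_const, prod_filter]
  refine dvd_sum fun σ _ => (prod_dvd_prod_of_dvd _ _ fun l _ => ?_).mul_left _
  split_ifs with h5
  · rw [dvd_iff_isRoot, IsRoot, ← syl_vec (natDegree_map_le.trans hF) (natDegree_map_le.trans hG)
      ((map_evalRingHom_eval x _ F).trans (h _ h5).1) ((map_evalRingHom_eval x _ G).trans (h _ h5).2)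
      (σ l), sylvester_map_map]
    simp [Matrix.mul_apply, eval_finsetSum]
  · exact one_dvd _

lemma deg_le {F G : ℂ[X][X]} {a : ℕ} (hF : ∀ i, (F.coeff i).natDegree ≤ a)
    (hG : ∀ i, (G.coeff i).natDegree ≤ a) (m n : ℕ) : (resultant F G m n).natDegree ≤ (m + n) * a := by
  rw [resultant, Matrix.det_apply']
  refine natDegree_sum_le_of_forall_le _ _ fun σ _ => natDegree_mul_le.trans ?_
  rw [natDegree_intCast, zero_add]
  refine (natDegree_prod_le _ _).trans ((sum_le_card_nsmul _ _ a fun j _ => ?_).trans (by simp))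
  induction j using Fin.addCases <;> simp only [sylvester, Matrix.of_apply, Fin.addCases_left,
    Fin.addCases_right] <;> split_ifs <;> simp [hF, hG]

lemma count {F G : ℂ[X][X]} (hF : F ≠ 0) (hG : G ≠ 0) {a b : ℕ} (hF1 : F.natDegree ≤ b)
    (hG1 : G.natDegree ≤ b) (hF2 : ∀ i, (F.coeff i).natDegree ≤ a)
    (hG2 : ∀ i, (G.coeff i).natDegree ≤ a)
    (H : ∀ x y : ℂ, x ≠ 0 → y ≠ 0 → F.evalEval x y = 0 → G.evalEval x y = 0 →
      IsAlgebraic ℚ x ∧ IsAlgebraic ℚ y) (S : Finset (ℂ × ℂ))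
    (hS : ∀ q ∈ S, q.1 ≠ 0 ∧ q.2 ≠ 0 ∧ F.evalEval q.1 q.2 = 0 ∧ G.evalEval q.1 q.2 = 0) :
    S.card ≤ (b + b) * a := by
  classical
  obtain ⟨e, F, rfl, h2⟩ : ∃ e F', F = X ^ e * F' ∧ F'.coeff 0 ≠ 0 := by
    obtain ⟨F', h1, h2⟩ := exists_eq_pow_rootMultiplicity_mul_and_not_dvd F hF 0
    rw [C_0, sub_zero] at h1 h2
    exact ⟨_, F', h1, mt X_dvd_iff.2 h2⟩
  have hF0 : F ≠ 0 := right_ne_zero_of_mul hF
  have hev : ∀ x y : ℂ, y ≠ 0 → ((X ^ e * F).evalEval x y = 0 ↔ F.evalEval x y = 0) :=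
    fun x y hy => by simp [evalEval_mul, evalEval_pow, hy]
  have hR : resultant F G ≠ 0 := fun hR => by
    obtain ⟨x, h3, h4, h5⟩ := exists_trans (mul_ne_zero (mul_ne_zero (leadingCoeff_ne_zero.2 hF0)
      (leadingCoeff_ne_zero.2 hG)) h2)
    simp only [eval_mul, mul_ne_zero_iff] at h5
    have h6 := resultant_map_map F G F.natDegree G.natDegree (evalRingHom x)
    rw [hR, map_zero, ← natDegree_map_of_leadingCoeff_ne_zero (evalRingHom x) h5.1.1,
      ← natDegree_map_of_leadingCoeff_ne_zero (evalRingHom x) h5.1.2, resultant_eq_zero_iff,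
      isCoprime_iff_aeval_ne_zero_of_isAlgClosed ℂ ℂ] at h6
    obtain ⟨y, h7⟩ := not_forall.1 h6.2
    simp only [coe_aeval_eq_eval, map_evalRingHom_eval, not_or, not_not] at h7
    have h8 : y ≠ 0 := fun e => h5.2 (by simpa [e, evalEval, ← coeff_zero_eq_eval_zero] using h7.1)
    exact h4 (H x y h3 h8 ((hev x y h8).2 h7.1) h7.2).1
  refine le_trans ?_ ((deg_le (fun i => coeff_X_pow_mul F e i ▸ hF2 _) hG2 _ _).trans
    (Nat.mul_le_mul_right a (add_le_add ((natDegree_le_of_dvd (dvd_mul_left _ _) hF).trans hF1) hG1)))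
  refine le_trans ?_ (card_roots' _)
  rw [card_def, ← Multiset.card_map Prod.fst]
  refine Multiset.card_le_card (Multiset.le_iff_count.2 fun x => ?_)
  have h3 : ∀ y ∈ (S.filter fun q => x = q.1).image Prod.snd,
      x ≠ 0 ∧ F.evalEval x y = 0 ∧ G.evalEval x y = 0 := fun y hy => by
    obtain ⟨q, h3, rfl⟩ := mem_image.1 hy
    obtain ⟨h4, rfl⟩ := mem_filter.1 h3
    exact ⟨(hS q h4).1, (hev _ _ (hS q h4).2.1).1 (hS q h4).2.2.1, (hS q h4).2.2.2⟩
  rw [Multiset.count_map, count_roots, le_rootMultiplicity_iff hR, ← filter_val, ← card_def,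
    ← card_image_of_injOn (f := Prod.snd) fun q hq q' hq' e =>
      Prod.ext ((mem_filter.1 hq).2.symm.trans (mem_filter.1 hq').2) e]
  refine pow_dvd le_rfl le_rfl x _ ?_ fun y hy => (h3 y hy).2
  have key : ∀ P : ℂ[X][X], P.map (evalRingHom x) ≠ 0 → (∀ y ∈ (S.filter fun q => x = q.1).image
      Prod.snd, P.evalEval x y = 0) → ((S.filter fun q => x = q.1).image Prod.snd).card ≤
        P.natDegree := fun P h4 h5 => (card_le_degree_of_subset_roots fun y hy =>
      (mem_roots h4).2 ((map_evalRingHom_eval x y P).trans (h5 y hy))).trans natDegree_map_le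
  by_cases h4 : F.map (evalRingHom x) = 0
  · by_cases h5 : G.map (evalRingHom x) = 0
    · obtain ⟨y, h6, h7, -⟩ := exists_trans one_ne_zero
      refine (card_eq_zero.2 (eq_empty_of_forall_notMem fun y' hy => h7 (H x y (h3 y' hy).1 h6
        ((hev x y h6).2 ?_) ?_).2)).trans_le zero_le <;>
      simp [← map_evalRingHom_eval, h4, h5]
    · exact (key G h5 fun y hy => (h3 y hy).2.2).trans (Nat.le_add_left _ _)
  · exact (key F h4 fun y hy => (h3 y hy).2.1).trans (Nat.le_add_right _ _)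

/-- the shifted monomial. -/
noncomputable def T (V W : ℕ) (r s : ℤ) : ℂ[X][X] := monomial (s + W).toNat (X ^ (r + V).toNat)

/-- the polynomial form of the equation. -/
noncomputable def P (k c : ℤ) (V W : ℕ) (r s r' s' : ℤ) : ℂ[X][X] :=
  (k : ℂ) • T V W 0 0 + (c : ℂ) • (T V W r s + T V W (-r) (-s) + T V W r' s' + T V W (-r') (-s'))

/-- the degree bounds. -/
def Bd (V W : ℕ) (F : ℂ[X][X]) : Prop := F.natDegree ≤ 2 * W ∧ ∀ i, (F.coeff i).natDegree ≤ 2 * V

variable {V W : ℕ} {r s r' s' k c : ℤ}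

lemma Bd.add {F G : ℂ[X][X]} (h : Bd V W F) (h' : Bd V W G) : Bd V W (F + G) :=
  ⟨natDegree_add_le_of_degree_le h.1 h'.1, fun i => by
    rw [coeff_add]; exact natDegree_add_le_of_degree_le (h.2 i) (h'.2 i)⟩

lemma Bd.smul {F : ℂ[X][X]} (h : Bd V W F) (t : ℂ) : Bd V W (t • F) :=
  ⟨(natDegree_smul_le _ _).trans h.1, fun i => by
    rw [coeff_smul]; exact (natDegree_smul_le _ _).trans (h.2 i)⟩

lemma bd_T (hr : |r| ≤ V) (hs : |s| ≤ W) : Bd V W (T V W r s) := by
  rw [abs_le] at hr hs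
  refine ⟨(natDegree_monomial_le _).trans (by omega), fun i => ?_⟩
  rw [T, coeff_monomial]
  split_ifs
  · rw [natDegree_X_pow]; omega
  · simp

lemma bd_P (hr : |r| ≤ V) (hs : |s| ≤ W) (hr' : |r'| ≤ V) (hs' : |s'| ≤ W) :
    Bd V W (P k c V W r s r' s') :=
  ((bd_T (by simp) (by simp)).smul _).add (((((bd_T hr hs).add (bd_T (by simpa) (by simpa))).add
    (bd_T hr' hs')).add (bd_T (by simpa) (by simpa))).smul _)

lemma ev_T (hr : |r| ≤ V) (hs : |s| ≤ W) {x y : ℂ} (hx : x ≠ 0) (hy : y ≠ 0) :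
    (T V W r s).evalEval x y = x ^ V * y ^ W * (x ^ r * y ^ s) := by
  rw [abs_le] at hr hs
  rw [T, evalEval, eval_monomial, eval_mul, eval_pow, eval_pow, eval_X, eval_C, ← zpow_natCast,
    ← zpow_natCast y, Int.toNat_of_nonneg (by omega), Int.toNat_of_nonneg (by omega),
    zpow_add₀ hx, zpow_add₀ hy, zpow_natCast, zpow_natCast]
  ring

lemma ev_P (hr : |r| ≤ V) (hs : |s| ≤ W) (hr' : |r'| ≤ V) (hs' : |s'| ≤ W) {x y : ℂ} (hx : x ≠ 0)
    (hy : y ≠ 0) : (P k c V W r s r' s').evalEval x y = 0 ↔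
      PV k c (x ^ r * y ^ s) (x ^ r' * y ^ s') = 0 := by
  rw [← mul_eq_zero_iff_left (mul_ne_zero (pow_ne_zero V hx) (pow_ne_zero W hy))
    (b := PV k c _ _)]
  simp only [P, evalEval_add, evalEval_smul]
  rw [ev_T (by simp) (by simp) hx hy, ev_T hr hs hx hy, ev_T hr' hs' hx hy,
    ev_T (by simpa) (by simpa) hx hy, ev_T (by simpa) (by simpa) hx hy]
  simp only [PV, zpow_neg, zpow_zero, mul_inv, smul_eq_mul]
  constructor <;> intro h <;> linear_combination h

lemma P_ne (hA : Adm k c) (hr : |r| ≤ V) (hs : |s| ≤ W) (hr' : |r'| ≤ V) (hs' : |s'| ≤ W) :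
    P k c V W r s r' s' ≠ 0 := fun e => four hA (by
  have := (ev_P (k := k) (c := c) hr hs hr' hs' one_ne_zero one_ne_zero).1 (by simp [e])
  simp only [PV, one_zpow, mul_one, inv_one] at this
  linear_combination this)

end Elim

open Elim in
theorem elim : SElim := fun k c hA v w hr hs V W hv hw S hS => by
  have b1 := bd_P (k := k) (c := c) (hv 0) (hw 0) (hv 1) (hw 1)
  have b2 := bd_P (k := k) (c := c) (hv 2) (hw 2) (hv 3) (hw 3)
  refine (count (P_ne hA (hv 0) (hw 0) (hv 1) (hw 1)) (P_ne hA (hv 2) (hw 2) (hv 3) (hw 3))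
    b1.1 b2.1 b1.2 b2.2 (fun x y hx hy h1 h2 => ?_) S fun q hq => ?_).trans_eq (by ring)
  · rw [ev_P (hv _) (hw _) (hv _) (hw _) hx hy] at h1 h2
    have key := fun e => mt (sym (x := Units.mk0 x hx) (y := Units.mk0 y hy) (e := e) hA hr
      (by simpa [Z, mon] using h1) (by simpa [Z, mon] using h2)) hs
    exact ⟨by simpa [mon] using key (1, 0), by simpa [mon] using key (0, 1)⟩
  · obtain ⟨h1, h2, h3, h4⟩ := hS q hq
    exact ⟨h1, h2, (ev_P (hv _) (hw _) (hv _) (hw _) h1 h2).2 h3,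
      (ev_P (hv _) (hw _) (hv _) (hw _) h1 h2).2 h4⟩

end Pool.Agent.MP_c1891a_nt.H91
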