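import Pool.Agent.MP_c1891a_nt.H91.Spec

/-
A common zero with a transcendental coordinate forces the symmetry of the rows.
-/

namespace Pool.Agent.MP_c1891a_nt.H91

namespace Elim

/-- the monomial with exponent vector `r`. -/
noncomputable def mon (x y : ℂˣ) (r : ℤ × ℤ) : ℂ := (x ^ r.1 * y ^ r.2 : ℂˣ)

variable {x y : ℂˣ} {k c : ℤ}

lemma mon_ne (r : ℤ × ℤ) : mon x y r ≠ 0 := Units.ne_zero _

lemma mon_zero : mon x y 0 = 1 := by simp [mon]

lemma mon_add (r s : ℤ × ℤ) : mon x y (r + s) = mon x y r * mon x y s := by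
  simp [mon, zpow_add, mul_mul_mul_comm]

lemma mon_smul (d : ℤ) (r : ℤ × ℤ) : mon x y (d • r) = mon x y r ^ d := by
  simp [mon, mul_comm d, zpow_mul, mul_zpow]

lemma mon_neg (r : ℤ × ℤ) : mon x y (-r) = (mon x y r)⁻¹ := by simpa using mon_smul (-1) r

lemma mon_sub (r s : ℤ × ℤ) : mon x y (r - s) = mon x y r / mon x y s := by
  rw [sub_eq_add_neg, mon_add, mon_neg, div_eq_mul_inv]

/-- equality up to sign. -/
def Pm (a a' : ℤ × ℤ) : Prop := a' = a ∨ a' = -a

variable (k c x y) in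
/-- the equation. -/
def Z (a b : ℤ × ℤ) : Prop := PV k c (mon x y a) (mon x y b) = 0

variable {a a' b d e f : ℤ × ℤ}

lemma Z.symm (h : Z x y k c a b) : Z x y k c b a := by
  simp only [Z, PV] at *
  linear_combination h

lemma Z.pm (h : Z x y k c a b) (h' : Pm a a') : Z x y k c a' b := by
  obtain rfl | rfl := h'
  · exact h
  simp only [Z, PV, mon_neg, inv_inv] at *
  linear_combination h

/-- valuations that are trivial on the algebraic numbers. -/
def Tr (V : ValuationSubring ℂ) : Prop := ∀ z : ℂ, z ≠ 0 → IsAlgebraic ℚ z → V.valuation z = 1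

lemma exists_tr {z : ℂ} (h : ¬ IsAlgebraic ℚ z) : ∃ V, Tr V ∧ 1 < V.valuation z := by
  obtain ⟨V, h1, h2⟩ := Subring.exists_le_valuationSubring_of_isIntegrallyClosedIn (x := z)
    (R := (integralClosure ℚ ℂ).toSubring) fun h' => h (IsIntegral.isAlgebraic h')
  refine ⟨V, fun w h0 hw => le_antisymm ((V.valuation_le_one_iff _).2 (h1 hw.isIntegral)) ?_,
    not_le.1 fun h' => h2 ((V.valuation_le_one_iff _).1 h')⟩
  have := (V.valuation_le_one_iff _).2 (h1 hw.inv.isIntegral)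
  rwa [map_inv₀, inv_le_one₀ (V.valuation.pos_iff.2 h0)] at this

variable {V V' : ValuationSubring ℂ}

lemma val_pos (r : ℤ × ℤ) : 0 < V.valuation (mon x y r) := V.valuation.pos_iff.2 (mon_ne r)

lemma Pm.val (h : Pm a a') : V.valuation (mon x y a) = V.valuation (mon x y a') ∨
    V.valuation (mon x y a) = (V.valuation (mon x y a'))⁻¹ := by
  obtain rfl | rfl := h
  · exact Or.inl rfl
  · exact Or.inr (by rw [mon_neg, map_inv₀, inv_inv])

lemma Pm.one (h : Pm a a') (h1 : V.valuation (mon x y a) = 1) : V.valuation (mon x y a') = 1 := by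
  simpa [h1, eq_comm] using h.val (V := V) (x := x) (y := y)

lemma exists_pm (h : V.valuation (mon x y a) ≠ 1) : ∃ a', Pm a a' ∧ 1 < V.valuation (mon x y a') := by
  obtain h | h := h.lt_or_gt
  · exact ⟨-a, Or.inr rfl, by rw [mon_neg, map_inv₀]; exact (one_lt_inv₀ (val_pos a)).2 h⟩
  · exact ⟨a, Or.inl rfl, h⟩

lemma val_sub (h : V.valuation (mon x y a) = V.valuation (mon x y b)) :
    V.valuation (mon x y (a - b)) = 1 := by
  rw [mon_sub, map_div₀, h, div_self (val_pos b).ne']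

lemma det_eq (h : V.valuation (mon x y e) ≠ 1) (ha : V.valuation (mon x y a) = 1)
    (hb : V.valuation (mon x y b) = 1) : a.1 * b.2 = b.1 * a.2 := by
  have : (a.1 * b.2 - b.1 * a.2) • e = (e.1 * b.2 - e.2 * b.1) • a + (a.1 * e.2 - a.2 * e.1) • b := by
    ext <;> simp <;> ring
  have h1 := congrArg (fun r => V.valuation (mon x y r)) this
  simp only [mon_add, mon_smul, map_mul, map_zpow₀, ha, hb, one_zpow, mul_one] at h1
  exact sub_eq_zero.1 ((zpow_eq_one_iff_right₀ zero_le h).1 h1)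

lemma par (h : V.valuation (mon x y e) ≠ 1) (ha : V.valuation (mon x y a) = 1)
    (hb : V.valuation (mon x y b) = 1) (h0 : a ≠ 0) : ∃ n j : ℤ, n ≠ 0 ∧ n • b = j • a := by
  have h1 := det_eq h ha hb
  by_cases h2 : a.1 = 0
  · exact ⟨a.2, b.2, fun h3 => h0 (Prod.ext h2 h3), by ext <;> simp <;> linarith⟩
  · exact ⟨a.1, b.1, h2, by ext <;> simp <;> linarith⟩

lemma transfer (h : V.valuation (mon x y e) ≠ 1) (ha : V.valuation (mon x y a) = 1)
    (hb : V.valuation (mon x y b) = 1) (h0 : a ≠ 0) (h' : V'.valuation (mon x y a) = 1) :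
    V'.valuation (mon x y b) = 1 := by
  obtain ⟨n, j, hn, h1⟩ := par h ha hb h0
  have h2 := congrArg (fun r => V'.valuation (mon x y r)) h1
  simp only [mon_smul, map_zpow₀, h', one_zpow] at h2
  exact by_contra fun h3 => hn ((zpow_eq_one_iff_right₀ zero_le h3).1 h2)

lemma Tr.int (hV : Tr V) {n : ℤ} (h : n ≠ 0) : V.valuation n = 1 :=
  hV _ (Int.cast_ne_zero.2 h) (isAlgebraic_intCast n)

lemma Tr.pow (hV : Tr V) {z : ℂ} (h : V.valuation (z - 1) < 1) {n : ℤ} (hn : n ≠ 0) :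
    V.valuation (z ^ n - 1) = V.valuation (z - 1) := by
  have h1 : V.valuation z = 1 := by simpa using V.valuation.map_one_add_of_lt h
  have h2 : ∀ m : ℕ, ∃ t, V.valuation t < 1 ∧ z ^ m - 1 = (z - 1) * (m + t) := fun m => by
    induction m with
    | zero => exact ⟨0, by simp⟩
    | succ m ih =>
      obtain ⟨t, h3, h4⟩ := ih
      refine ⟨(z - 1) * m + z * t, V.valuation.map_add_lt ?_ (by simpa [h1] using h3), by
        push_cast; linear_combination z * h4⟩
      rw [map_mul]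
      exact (mul_le_of_le_one_right' ((V.valuation_le_one_iff _).2 (natCast_mem V m))).trans_lt h
  have h3 : ∀ m : ℕ, m ≠ 0 → V.valuation (z ^ m - 1) = V.valuation (z - 1) := fun m hm => by
    obtain ⟨t, h3, h4⟩ := h2 m
    have h5 : V.valuation m = 1 := by simpa using hV.int (Int.natCast_ne_zero.2 hm)
    rw [h4, map_mul, V.valuation.map_add_eq_of_lt_left (h5 ▸ h3), h5, mul_one]
  obtain ⟨m, rfl | rfl⟩ := n.eq_nat_or_neg
  · rw [zpow_natCast, h3 m (by omega)]
  · have h0 : z ^ m ≠ 0 := pow_ne_zero _ fun e => by simp [e] at h1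
    rw [zpow_neg, zpow_natCast, show (z ^ m)⁻¹ - 1 = -(z ^ m - 1) / z ^ m by field_simp; ring,
      map_div₀, Valuation.map_neg, h3 m (by omega), map_pow, h1, one_pow, div_one]

variable (hA : Adm k c)
include hA

lemma c_ne : c ≠ 0 := fun e => by
  have := hA.2.1
  have := abs_nonneg k
  omega

lemma four : (k : ℂ) + c * 4 ≠ 0 := fun e => by
  have h1 : k + c * 4 = 0 := by exact_mod_cast e
  have := hA.2.1
  have := neg_le_abs k
  omega

lemma quo (hV : Tr V) : V.valuation (-(k / c : ℂ)) = 1 := by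
  rw [Valuation.map_neg, map_div₀, hV.int hA.1, hV.int (c_ne hA), div_one]

lemma Z.sum (h : Z x y k c a b) :
    mon x y a + (mon x y a)⁻¹ + mon x y b + (mon x y b)⁻¹ = -(k / c : ℂ) := by
  have : (c : ℂ) ≠ 0 := Int.cast_ne_zero.2 (c_ne hA)
  rw [← neg_div, eq_div_iff this]
  simp only [Z, PV] at h
  linear_combination h

lemma Z.dom (h : Z x y k c a b) (hV : Tr V) (h1 : 1 < V.valuation (mon x y a)) :
    ∃ b', Pm b b' ∧ V.valuation (mon x y a) ≤ V.valuation (mon x y b') := by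
  by_contra hc
  push Not at hc
  have h2 := V.valuation.map_sub_lt (V.valuation.map_sub_lt (V.valuation.map_sub_lt
    ((quo hA hV).trans_lt h1) (x := _) (y := (mon x y a)⁻¹)
      (by rw [map_inv₀]; exact (inv_lt_one_of_one_lt₀ h1).trans h1)) (hc b (Or.inl rfl)))
    (hc (-b) (Or.inr rfl))
  rw [← h.sum hA, mon_neg] at h2
  exact h2.ne (by congr 1; ring)

lemma Z.norm (h : Z x y k c a b) (hV : Tr V) (h1 : 1 < V.valuation (mon x y a)) :
    ∃ b', Pm b b' ∧ V.valuation (mon x y a) = V.valuation (mon x y b') := by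
  obtain ⟨b', h2, h3⟩ := h.dom hA hV h1
  obtain ⟨a', h4, h5⟩ := (h.symm.pm h2).dom hA hV (h1.trans_le h3)
  refine ⟨b', h2, le_antisymm h3 ?_⟩
  obtain rfl | rfl := h4
  · exact h5
  · rw [mon_neg, map_inv₀] at h5
    exact h5.trans ((inv_lt_one_of_one_lt₀ h1).trans h1).le

lemma Z.ten (h : Z x y k c a b) (hV : Tr V) (h1 : 1 < V.valuation (mon x y a))
    (h2 : V.valuation (mon x y a) = V.valuation (mon x y b)) :
    V.valuation (-mon x y (a - b) - 1) = (V.valuation (mon x y a))⁻¹ := by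
  have h3 := quo hA hV
  have := mon_ne (x := x) (y := y) a
  have := mon_ne (x := x) (y := y) b
  rw [← h.sum hA, show mon x y a + (mon x y a)⁻¹ + mon x y b + (mon x y b)⁻¹ =
    -((-(mon x y a / mon x y b) - 1) * mon x y b * (1 + (mon x y a * mon x y b)⁻¹)) by
      field_simp; ring, Valuation.map_neg, map_mul, map_mul, V.valuation.map_one_add_of_lt (by
        rw [map_inv₀, map_mul, ← h2]
        exact inv_lt_one_of_one_lt₀ (one_lt_mul'' h1 h1)), mul_one, ← h2, ← mon_sub] at h3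
  exact eq_inv_of_mul_eq_one_left h3

lemma Z.trans (h : Z x y k c a b) (hV : Tr V) (h1 : 1 < V.valuation (mon x y a))
    (h2 : V.valuation (mon x y a) = V.valuation (mon x y b)) :
    ¬ IsAlgebraic ℚ (mon x y (a - b)) := fun h3 => by
  have h4 := h.ten hA hV h1 h2
  rw [hV _ (fun e => (inv_pos.2 (val_pos (V := V) a)).ne (by rw [← h4, e, map_zero]))
    (h3.neg.sub isAlgebraic_one)] at h4
  exact h1.ne' (inv_eq_one.1 h4.symm)

lemma Z.ne (h : Z x y k c a b) (hV : Tr V) (h1 : 1 < V.valuation (mon x y a))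
    (h2 : V.valuation (mon x y a) = V.valuation (mon x y b)) : a - b ≠ 0 := fun e =>
  h.trans hA hV h1 h2 (by rw [e, mon_zero]; exact isAlgebraic_one)

lemma Z.flat (h : Z x y k c a b) (he : V.valuation (mon x y e) ≠ 1)
    (ha : V.valuation (mon x y a) = 1) (hb : V.valuation (mon x y b) = 1)
    (hd : V.valuation (mon x y d) = 1) : IsAlgebraic ℚ (mon x y d) := by
  by_contra hc
  obtain ⟨V', hV', h1⟩ := exists_tr hc
  have key : ∀ a b, Z x y k c a b → V.valuation (mon x y a) = 1 → V.valuation (mon x y b) = 1 →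
      a = 0 := fun a b h ha hb => by_contra fun h0 => h1.ne' (transfer he ha hd h0 (by
    by_contra h2
    obtain ⟨a', h3, h4⟩ := exists_pm h2
    obtain ⟨b', h5, h6⟩ := (h.pm h3).norm hA hV' h4
    exact h1.ne' (transfer he (val_sub ((h3.one ha).trans (h5.one hb).symm)) hd
      (((h.pm h3).symm.pm h5).symm.ne hA hV' h4 h6) (val_sub h6))))
  obtain rfl := key a b h ha hb
  obtain rfl := key b 0 h.symm hb ha
  refine four hA ?_
  simp only [Z, PV, mon_zero, inv_one] at h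
  linear_combination h

lemma Z.eqv (h : Z x y k c a b) (h' : Z x y k c d f) (hV : Tr V)
    (h1 : 1 < V.valuation (mon x y a)) :
    ∃ d', Pm d d' ∧ V.valuation (mon x y a) = V.valuation (mon x y d') := by
  obtain ⟨b', h2, h3⟩ := h.norm hA hV h1
  have g := (h.symm.pm h2).symm
  have h4 : V.valuation (mon x y d) ≠ 1 := fun h4 => g.trans hA hV h1 h3
    (h'.flat hA h1.ne' h4 (by
      by_contra h5
      obtain ⟨f', h6, h7⟩ := exists_pm h5
      obtain ⟨d', h8, h9⟩ := (h'.symm.pm h6).norm hA hV h7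
      exact h7.ne' (h9.trans (h8.one h4))) (val_sub h3))
  obtain ⟨d', h5, h6⟩ := exists_pm h4
  obtain ⟨f', h7, h8⟩ := (h'.pm h5).norm hA hV h6
  have g' := ((h'.pm h5).symm.pm h7).symm
  obtain ⟨n, j, hn, h9⟩ := par h1.ne' (val_sub h3) (val_sub h8) (g.ne hA hV h1 h3)
  have hj : j ≠ 0 := fun e => g'.ne hA hV h6 h8
    ((smul_eq_zero.1 (h9.trans (by rw [e, zero_smul]))).resolve_left hn)
  have t := g.ten hA hV h1 h3
  have t' := g'.ten hA hV h6 h8
  refine ⟨d', h5, inv_injective ?_⟩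
  refine t.symm.trans (((hV.pow (t.trans_lt (inv_lt_one_of_one_lt₀ h1))
    (mul_ne_zero two_ne_zero hj)).symm.trans (Eq.trans ?_ (hV.pow
      (t'.trans_lt (inv_lt_one_of_one_lt₀ h6)) (mul_ne_zero two_ne_zero hn)))).trans t')
  rw [(even_two_mul j).neg_zpow, (even_two_mul n).neg_zpow, ← mon_smul, ← mon_smul, mul_smul,
    mul_smul, h9]

lemma Z.one (h : Z x y k c a b) (h' : Z x y k c d f) (hV : Tr V)
    (h1 : V.valuation (mon x y d) = 1) : V.valuation (mon x y a) = 1 := by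
  by_contra h2
  obtain ⟨a', h3, h4⟩ := exists_pm h2
  obtain ⟨d', h5, h6⟩ := (h.pm h3).eqv hA h' hV h4
  exact h4.ne' (h6.trans (h5.one h1))

lemma Z.row (h : Z x y k c a b) (h' : Z x y k c d f) (hV : Tr V)
    (h1 : 1 < V.valuation (mon x y a)) (h2 : V.valuation (mon x y a) = V.valuation (mon x y b))
    (h3 : V.valuation (mon x y a) = V.valuation (mon x y d)) : d = a ∨ d = b := by
  obtain ⟨V', hV', h4⟩ := exists_tr (h.trans hA hV h1 h2)
  have h5 : V'.valuation (mon x y a) ≠ V'.valuation (mon x y b) := fun e => h4.ne' (val_sub e)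
  obtain ⟨a', h6, h7⟩ := exists_pm (V := V') (a := a) fun e => h5 (e.trans (h.symm.one hA h hV' e).symm)
  obtain ⟨b', h8, h9⟩ := (h.pm h6).norm hA hV' h7
  obtain ⟨d', h10, h11⟩ := (h.pm h6).eqv hA h' hV' h7
  have h12 : V'.valuation (mon x y d) = V'.valuation (mon x y a) ∨
      V'.valuation (mon x y d) = V'.valuation (mon x y b) := by
    have k1 := h6.val (V := V') (x := x) (y := y)
    have k2 := h8.val (V := V') (x := x) (y := y)
    have k3 := h10.val (V := V') (x := x) (y := y)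
    rw [← h9] at k2
    rw [← h11] at k3
    rcases k1 with k1 | k1 <;> rcases k2 with k2 | k2 <;> rcases k3 with k3 | k3 <;> simp_all
  exact h12.imp (fun e => sub_eq_zero.1 (by_contra fun h0 => h4.ne'
      (transfer h1.ne' (val_sub h3.symm) (val_sub h2) h0 (val_sub e))))
    fun e => sub_eq_zero.1 (by_contra fun h0 => h4.ne'
      (transfer h1.ne' (val_sub (h3.symm.trans h2)) (val_sub h2) h0 (val_sub e)))

omit hA in
lemma Pm.sign (h : Pm a d) (h' : Pm b d) :
    ∃ ε : ℤ, (ε = 1 ∨ ε = -1) ∧ b.1 = ε * a.1 ∧ b.2 = ε * a.2 := by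
  obtain rfl | rfl := h <;> obtain h' | h' := h'
  · exact ⟨1, Or.inl rfl, by simp [h']⟩
  · exact ⟨-1, Or.inr rfl, by simp [h']⟩
  · exact ⟨-1, Or.inr rfl, by simp [← h']⟩
  · exact ⟨1, Or.inl rfl, by simp [neg_inj.1 h']⟩

theorem sym {v w : Fin 4 → ℤ} (hr : ∃ i j, v i * w j ≠ v j * w i)
    (h : Z x y k c (v 0, w 0) (v 1, w 1)) (h' : Z x y k c (v 2, w 2) (v 3, w 3))
    (he : ¬ IsAlgebraic ℚ (mon x y e)) : SymRows v w := by
  obtain ⟨V, hV, h1⟩ := exists_tr he
  obtain ⟨a₀, p0, q0⟩ := exists_pm (V := V) (x := x) (y := y) (a := (v 0, w 0)) fun h2 => by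
    have h3 : ∀ i, V.valuation (mon x y (v i, w i)) = 1 := fun i => by
      fin_cases i
      exacts [h2, h.symm.one hA h hV h2, h'.one hA h hV h2, h'.symm.one hA h hV h2]
    obtain ⟨i, j, hij⟩ := hr
    exact hij (det_eq h1.ne' (h3 i) (h3 j))
  obtain ⟨a₁, p1, q1⟩ := (h.pm p0).norm hA hV q0
  obtain ⟨a₂, p2, q2⟩ := (h.pm p0).eqv hA h' hV q0
  obtain ⟨a₃, p3, q3⟩ := (h.pm p0).eqv hA h'.symm hV q0
  have g := ((h.pm p0).symm.pm p1).symm
  have g' := ((h'.pm p2).symm.pm p3).symm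
  have h2 := sub_ne_zero.1 (g'.ne hA hV (q2 ▸ q0) (q2.symm.trans q3))
  obtain rfl | rfl := g.row hA g' hV q0 q1 q2 <;> obtain rfl | rfl := g.row hA g'.symm hV q0 q1 q3
  · exact absurd rfl h2
  · obtain ⟨ε, e1, e2⟩ := p0.sign p2
    obtain ⟨ε', e3, e4⟩ := p1.sign p3
    exact ⟨ε, ε', e1, e3, Or.inl ⟨e2.1, e2.2, e4⟩⟩
  · obtain ⟨ε, e1, e2⟩ := p1.sign p2
    obtain ⟨ε', e3, e4⟩ := p0.sign p3
    exact ⟨ε, ε', e1, e3, Or.inr ⟨e2.1, e2.2, e4⟩⟩
  · exact absurd rfl h2

end Elim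

end Pool.Agent.MP_c1891a_nt.H91
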